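import Mathlib

/-! From an edge order in which both endpoint partitions are non-crossing to a two-page vertex
order. `none` is a dummy source or a dummy sink; the edges at the dummies are the two stacks. -/

set_option autoImplicit false

namespace Pool.Agent.MP_9caa86_co.H25

/-- An edge order starting with the dummy edge, both endpoint partitions non-crossing. -/
structure St {B W : Type} (E : Option B → Option W → Prop) (p : Option B → Option W → ℤ) :
    Prop where
  e0 : E none none
  min0 : ∀ b w, E b w → p none none ≤ p b w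
  inj : ∀ b w b' w', E b w → E b' w' → p b w = p b' w' → b = b' ∧ w = w'
  ncB : ∀ b b' w1 w2 w3 w4, E b w1 → E b' w2 → E b w3 → E b' w4 →
    p b w1 < p b' w2 → p b' w2 < p b w3 → p b w3 < p b' w4 → b = b'
  ncW : ∀ w w' b1 b2 b3 b4, E b1 w → E b2 w' → E b3 w → E b4 w' →
    p b1 w < p b2 w' → p b2 w' < p b3 w → p b3 w < p b4 w' → w = w'

/-- A two-page vertex order in which the stack vertices are uncovered and sorted. -/
structure Bk {B W : Type} (E : Option B → Option W → Prop) (p : Option B → Option W → ℤ)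
    (kb : B → ℕ) (kw : W → ℕ) (N : ℕ) : Prop where
  ltB : ∀ b w, E (some b) w → kb b < N
  ltW : ∀ b w, E b (some w) → kw w < N
  injB : ∀ b w b' w', E (some b) w → E (some b') w' → kb b = kb b' → b = b'
  injW : ∀ b w b' w', E b (some w) → E b' (some w') → kw w = kw w' → w = w'
  neBW : ∀ b w b' w', E (some b) w → E b' (some w') → kb b ≠ kw w'
  pageB : ∀ a c a' c', E (some a) (some c) → E (some a') (some c') →
    kb a < kb a' → kb a' < kw c → kw c < kw c' → False
  pageW : ∀ a c a' c', E (some a) (some c) → E (some a') (some c') →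
    kw c < kw c' → kw c' < kb a → kb a < kb a' → False
  uncB : ∀ β a c, E (some β) none → E (some a) (some c) → kb a < kb β → kb β < kw c → False
  uncW : ∀ ω a c, E none (some ω) → E (some a) (some c) → kw c < kw ω → kw ω < kb a → False
  ordB : ∀ β β', E (some β) none → E (some β') none → p (some β) none < p (some β') none →
    kb β' < kb β
  ordW : ∀ ω ω', E none (some ω) → E none (some ω') → p none (some ω) < p none (some ω') →
    kw ω' < kw ω

variable {B W : Type} {E : Option B → Option W → Prop} {p : Option B → Option W → ℤ}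

lemma St.flip (S : St E p) : St (fun w b => E b w) (fun w b => p b w) :=
  ⟨S.e0, fun w b h => S.min0 b w h, fun w b w' b' h h' e => (S.inj b w b' w' h h' e).symm,
    fun w w' b1 b2 b3 b4 => S.ncW w w' b1 b2 b3 b4, fun b b' w1 w2 w3 w4 => S.ncB b b' w1 w2 w3 w4⟩

lemma Bk.flip {kb : B → ℕ} {kw : W → ℕ} {N : ℕ}
    (K : Bk (fun w b => E b w) (fun w b => p b w) kw kb N) : Bk E p kb kw N :=
  ⟨fun b w h => K.ltW w b h, fun b w h => K.ltB w b h,
    fun b w b' w' h h' => K.injW w b w' b' h h', fun b w b' w' h h' => K.injB w b w' b' h h',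
    fun b w b' w' h h' => (K.neBW w' b' w b h' h).symm,
    fun a c a' c' h h' => K.pageW c a c' a' h h', fun a c a' c' h h' => K.pageB c a c' a' h h',
    fun β a c h h' => K.uncW β c a h h', fun ω a c h h' => K.uncB ω c a h h',
    fun β β' h h' => K.ordW β β' h h', fun ω ω' h h' => K.ordB ω ω' h h'⟩

/-- The four positions are in cyclic order. -/
def Cyc (a b c d : ℤ) : Prop :=
  (a < b ∧ b < c ∧ c < d) ∨ (b < c ∧ c < d ∧ d < a) ∨ (c < d ∧ d < a ∧ a < b) ∨
    (d < a ∧ a < b ∧ b < c)

lemma St.cycB (S : St E p) {b b' : Option B} {w1 w2 w3 w4 : Option W} (h1 : E b w1) (h2 : E b' w2)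
    (h3 : E b w3) (h4 : E b' w4) (h : Cyc (p b w1) (p b' w2) (p b w3) (p b' w4)) : b = b' := by
  rcases h with ⟨x, y, z⟩ | ⟨x, y, z⟩ | ⟨x, y, z⟩ | ⟨x, y, z⟩
  · exact S.ncB _ _ _ _ _ _ h1 h2 h3 h4 x y z
  · exact (S.ncB _ _ _ _ _ _ h2 h3 h4 h1 x y z).symm
  · exact S.ncB _ _ _ _ _ _ h3 h4 h1 h2 x y z
  · exact (S.ncB _ _ _ _ _ _ h4 h1 h2 h3 x y z).symm

lemma St.cycW (S : St E p) {w w' : Option W} {b1 b2 b3 b4 : Option B} (h1 : E b1 w) (h2 : E b2 w')
    (h3 : E b3 w) (h4 : E b4 w') (h : Cyc (p b1 w) (p b2 w') (p b3 w) (p b4 w')) : w = w' :=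
  S.flip.cycB h1 h2 h3 h4 h

lemma St.ne (S : St E p) {b b' : Option B} {w w' : Option W} (h : E b w) (h' : E b' w')
    (hne : b ≠ b' ∨ w ≠ w') : p b w ≠ p b' w' := fun e => by
  obtain ⟨e1, e2⟩ := S.inj _ _ _ _ h h' e
  rcases hne with x | x
  · exact x e1
  · exact x e2

lemma St.lt0 (S : St E p) {b : Option B} {w : Option W} (h : E b w) (hne : b ≠ none ∨ w ≠ none) :
    p none none < p b w :=
  lt_of_le_of_ne (S.min0 _ _ h) (S.ne h S.e0 hne).symm

lemma St.jordan_aux (S : St E p) {v β : B} {u c : W} (hv : E (some v) none) (hβ : E (some β) none)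
    (hu : E none (some u)) (hc : E none (some c)) (hvc : E (some v) (some c))
    (hβu : E (some β) (some u)) (h1 : p (some v) none < p (some β) none)
    (h2 : p none (some u) < p none (some c)) (h3 : p (some v) none < p none (some u)) : False := by
  have hvβ : v ≠ β := by rintro rfl; exact lt_irrefl _ h1
  have huc : u ≠ c := by rintro rfl; exact lt_irrefl _ h2
  have m1 := S.lt0 hv (Or.inl (by simp))
  have m3 := S.lt0 hvc (Or.inl (by simp))
  have m6 := S.lt0 hβu (Or.inl (by simp))
  have a35 : p (some v) (some c) < p none (some u) := by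
    refine lt_of_le_of_ne (not_lt.1 fun h => ?_) (S.ne hvc hu (Or.inl (by simp)))
    exact absurd (S.ncB _ _ _ _ _ _ S.e0 hv hu hvc m1 h3 h) (by simp)
  have a13 : p (some v) none < p (some v) (some c) := by
    refine lt_of_le_of_ne (not_lt.1 fun h => ?_) (S.ne hv hvc (Or.inr (by simp)))
    exact absurd (S.ncW _ _ _ _ _ _ S.e0 hvc hv hc m3 h (h3.trans h2)) (by simp)
  rcases lt_or_gt_of_ne (S.ne hvc hβ (Or.inr (by simp))) with a34 | a43
  · have a24 : p none (some c) < p (some β) none := by
      refine lt_of_le_of_ne (not_lt.1 fun h => ?_) (S.ne hc hβ (Or.inl (by simp)))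
      exact absurd (S.ncW _ _ _ _ _ _ S.e0 hvc hβ hc m3 a34 h) (by simp)
    have a26 : p none (some c) < p (some β) (some u) := by
      refine lt_of_le_of_ne (not_lt.1 fun h => ?_) (S.ne hc hβu (Or.inl (by simp)))
      exact absurd (S.ncB _ _ _ _ _ _ S.e0 hβu hc hβ m6 h a24) (by simp)
    exact huc (by simpa using (S.ncW _ _ _ _ _ _ hvc hu hc hβu a35 h2 a26).symm)
  · have a63 : p (some β) (some u) < p (some v) (some c) := by
      refine lt_of_le_of_ne (not_lt.1 fun h => ?_) (S.ne hβu hvc (Or.inr (by simpa using huc)))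
      exact hvβ (by simpa using S.ncB _ _ _ _ _ _ hv hβ hvc hβu h1 a43 h)
    exact huc (by simpa using S.ncW _ _ _ _ _ _ hβu hvc hu hc a63 a35 h2)

/-- The Jordan-type lemma: the two tops cannot both have a deeper neighbour. -/
lemma St.jordan (S : St E p) {v β : B} {u c : W} (hv : E (some v) none) (hβ : E (some β) none)
    (hu : E none (some u)) (hc : E none (some c)) (hvc : E (some v) (some c))
    (hβu : E (some β) (some u)) (h1 : p (some v) none < p (some β) none)
    (h2 : p none (some u) < p none (some c)) : False := by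
  rcases lt_or_gt_of_ne (S.ne hv hu (Or.inl (by simp))) with h | h
  · exact S.jordan_aux hv hβ hu hc hvc hβu h1 h2 h
  · exact S.flip.jordan_aux hu hc hv hβ hβu hvc h2 h1 h

/-- The rearrangement of positions. -/
def shift (p0 i p1 j x : ℤ) : ℤ :=
  if x ≤ p0 then x else if x < i then x + (p1 + j - i + 1 - p0) else if x < p1 then x + (j - i + 1)
  else if x ≤ j then x else x + (p1 + j - i + 1 - p0)

lemma shift_cases {p0 i p1 j : ℤ} (h0 : p0 < i) (h1 : i ≤ p1) (h2 : p1 ≤ j) {x : ℤ}
    (hx : p0 ≤ x) :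
    (x = p0 ∧ shift p0 i p1 j x = x) ∨
    (p0 < x ∧ x < i ∧ shift p0 i p1 j x = x + (p1 + j - i + 1 - p0)) ∨
    (i ≤ x ∧ x < p1 ∧ shift p0 i p1 j x = x + (j - i + 1)) ∨
    (p1 ≤ x ∧ x ≤ j ∧ shift p0 i p1 j x = x) ∨
    (j < x ∧ shift p0 i p1 j x = x + (p1 + j - i + 1 - p0)) := by
  unfold shift
  split_ifs <;> omega

lemma shift_white {p0 i p1 j a b c d : ℤ} (h0 : p0 < i) (h1 : i ≤ p1) (h2 : p1 ≤ j)
    (ha : p0 ≤ a) (hb : p0 ≤ b) (hc : p0 ≤ c) (hd : p0 ≤ d)
    (hac : (p0 < a ∧ a < p1) ↔ (p0 < c ∧ c < p1)) (hbd : (p0 < b ∧ b < p1) ↔ (p0 < d ∧ d < p1))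
    (x : shift p0 i p1 j a < shift p0 i p1 j b) (y : shift p0 i p1 j b < shift p0 i p1 j c)
    (z : shift p0 i p1 j c < shift p0 i p1 j d) : Cyc a b c d := by
  have hin : ∀ x, p0 ≤ x → (p0 < x ∧ x < p1) →
      (p0 < x ∧ x < i ∧ shift p0 i p1 j x = x + (p1 + j - i + 1 - p0)) ∨
      (i ≤ x ∧ x < p1 ∧ shift p0 i p1 j x = x + (j - i + 1)) := fun x hx h => by
    have := shift_cases h0 h1 h2 hx
    omega
  have hout : ∀ x, p0 ≤ x → ¬ (p0 < x ∧ x < p1) →
      (x ≤ j ∧ shift p0 i p1 j x = x) ∨
      (j < x ∧ shift p0 i p1 j x = x + (p1 + j - i + 1 - p0)) := fun x hx h => by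
    have := shift_cases h0 h1 h2 hx
    omega
  by_cases e1 : p0 < a ∧ a < p1 <;> by_cases e2 : p0 < b ∧ b < p1
  · have A := hin a ha e1
    have B := hin b hb e2
    have C := hin c hc (hac.1 e1)
    have D := hin d hd (hbd.1 e2)
    clear hin hout hac hbd
    rcases A with A | A <;> rcases B with B | B <;> rcases C with C | C <;> rcases D with D | D <;>
      first
      | (exfalso; omega)
      | exact Or.inl (by omega)
      | exact Or.inr (Or.inl (by omega))
      | exact Or.inr (Or.inr (Or.inl (by omega)))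
      | exact Or.inr (Or.inr (Or.inr (by omega)))
  · have A := hin a ha e1
    have B := hout b hb e2
    have C := hin c hc (hac.1 e1)
    clear hin hout hac hbd e1 e2
    exfalso
    omega
  · have B := hin b hb e2
    have C := hout c hc (fun h => e1 (hac.2 h))
    have D := hin d hd (hbd.1 e2)
    clear hin hout hac hbd e1 e2
    exfalso
    omega
  · have A := hout a ha e1
    have B := hout b hb e2
    have C := hout c hc (fun h => e1 (hac.2 h))
    have D := hout d hd (fun h => e2 (hbd.2 h))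
    clear hin hout hac hbd e1 e2
    exact Or.inl ⟨by omega, by omega, by omega⟩

lemma shift_black {p0 i p1 j a b c d : ℤ} (h0 : p0 < i) (h1 : i ≤ p1) (h2 : p1 ≤ j)
    (ha : p0 ≤ a) (hb : p0 ≤ b) (hc : p0 ≤ c) (hd : p0 ≤ d)
    (hac : (i ≤ a ∧ a ≤ j) ↔ (i ≤ c ∧ c ≤ j)) (hbd : (i ≤ b ∧ b ≤ j) ↔ (i ≤ d ∧ d ≤ j))
    (x : shift p0 i p1 j a < shift p0 i p1 j b) (y : shift p0 i p1 j b < shift p0 i p1 j c)
    (z : shift p0 i p1 j c < shift p0 i p1 j d) : Cyc a b c d := by
  have hin : ∀ x, p0 ≤ x → (i ≤ x ∧ x ≤ j) →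
      (i ≤ x ∧ x < p1 ∧ shift p0 i p1 j x = x + (j - i + 1)) ∨
      (p1 ≤ x ∧ x ≤ j ∧ shift p0 i p1 j x = x) := fun x hx h => by
    have := shift_cases h0 h1 h2 hx
    omega
  have hout : ∀ x, p0 ≤ x → ¬ (i ≤ x ∧ x ≤ j) →
      (x = p0 ∧ shift p0 i p1 j x = x) ∨
      (p0 < x ∧ shift p0 i p1 j x = x + (p1 + j - i + 1 - p0)) := fun x hx h => by
    have := shift_cases h0 h1 h2 hx
    omega
  by_cases e1 : i ≤ a ∧ a ≤ j <;> by_cases e2 : i ≤ b ∧ b ≤ j
  · have A := hin a ha e1
    have B := hin b hb e2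
    have C := hin c hc (hac.1 e1)
    have D := hin d hd (hbd.1 e2)
    clear hin hout hac hbd
    rcases A with A | A <;> rcases B with B | B <;> rcases C with C | C <;> rcases D with D | D <;>
      first
      | (exfalso; omega)
      | exact Or.inl (by omega)
      | exact Or.inr (Or.inl (by omega))
      | exact Or.inr (Or.inr (Or.inl (by omega)))
      | exact Or.inr (Or.inr (Or.inr (by omega)))
  · have A := hin a ha e1
    have B := hout b hb e2
    have C := hin c hc (hac.1 e1)
    clear hin hout hac hbd e1 e2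
    exfalso
    omega
  · have B := hin b hb e2
    have C := hout c hc (fun h => e1 (hac.2 h))
    have D := hin d hd (hbd.1 e2)
    clear hin hout hac hbd e1 e2
    exfalso
    omega
  · have A := hout a ha e1
    have B := hout b hb e2
    have C := hout c hc (fun h => e1 (hac.2 h))
    have D := hout d hd (fun h => e2 (hbd.2 h))
    clear hin hout hac hbd e1 e2
    exact Or.inl ⟨by omega, by omega, by omega⟩

/-- After the rearrangement the edge from the top source to the dummy sink is second. -/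
lemma St.reorder [Finite W] (S : St E p) {v : B} (hv : E (some v) none)
    (htop : ∀ β, E (some β) none → p (some v) none ≤ p (some β) none) :
    ∃ q : Option B → Option W → ℤ, St E q ∧
      (∀ b w, E b w → (b ≠ none ∨ w ≠ none) → q (some v) none ≤ q b w) ∧
      (∀ β β', E (some β) none → E (some β') none → p (some β) none < p (some β') none →
        q (some β) none < q (some β') none) ∧
      (∀ ω ω', E none (some ω) → E none (some ω') → p none (some ω) < p none (some ω') →
        q none (some ω) < q none (some ω')) := by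
  classical
  have := Fintype.ofFinite W
  obtain ⟨wi, hwi, hmin⟩ := Finset.exists_min_image
    (Finset.univ.filter fun w => E (some v) w) (p (some v)) ⟨none, by simpa using hv⟩
  obtain ⟨wj, hwj, hmax⟩ := Finset.exists_max_image
    (Finset.univ.filter fun w => E (some v) w) (p (some v)) ⟨none, by simpa using hv⟩
  simp only [Finset.mem_filter, Finset.mem_univ, true_and] at hwi hwj hmin hmax
  have h0 : p none none < p (some v) wi := S.lt0 hwi (Or.inl (by simp))
  have h1 := hmin none hv
  have h2 := hmax none hv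
  have cW : ∀ w b b', E b w → E b' w → p none none < p b w ∧ p b w < p (some v) none →
      p none none < p b' w ∧ p b' w < p (some v) none := by
    rintro w b b' hb hb' ⟨x, y⟩
    have hw : w ≠ none := by
      rintro rfl
      cases b with
      | none => exact lt_irrefl _ x
      | some β => exact absurd (htop β hb) (not_le.2 y)
    refine ⟨S.lt0 hb' (Or.inr hw), lt_of_le_of_ne (not_lt.1 fun h => ?_)
      (S.ne hb' hv (Or.inr hw))⟩
    exact hw (S.ncW _ _ _ _ _ _ S.e0 hb hv hb' x y h).symm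
  have cB : ∀ b w w', E b w → E b w' → p (some v) wi ≤ p b w ∧ p b w ≤ p (some v) wj →
      p (some v) wi ≤ p b w' ∧ p b w' ≤ p (some v) wj := by
    rintro b w w' hw hw' ⟨x, y⟩
    by_cases hb : b = some v
    · subst hb
      exact ⟨hmin _ hw', hmax _ hw'⟩
    have x' := lt_of_le_of_ne x (S.ne hwi hw (Or.inl (Ne.symm hb)))
    have y' := lt_of_le_of_ne y (S.ne hw hwj (Or.inl hb))
    refine ⟨not_lt.1 fun h => hb ?_, not_lt.1 fun h => hb ?_⟩
    · exact S.ncB _ _ _ _ _ _ hw' hwi hw hwj h x' y'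
    · exact (S.ncB _ _ _ _ _ _ hwi hw hwj hw' x' y' h).symm
  have sc := fun b w (h : E b w) => shift_cases h0 h1 h2 (S.min0 b w h)
  refine ⟨fun b w => shift (p none none) (p (some v) wi) (p (some v) none) (p (some v) wj) (p b w),
    ⟨S.e0, fun b w h => ?_, fun b w b' w' h h' e => S.inj _ _ _ _ h h' ?_, ?_, ?_⟩, ?_, ?_, ?_⟩
  · have a := sc b w h
    have b := sc _ _ S.e0
    omega
  · have a := sc b w h
    have b := sc _ _ h'
    omega
  · intro b b' w1 w2 w3 w4 a1 a2 a3 a4 x y z
    exact S.cycB a1 a2 a3 a4 (shift_black h0 h1 h2 (S.min0 _ _ a1) (S.min0 _ _ a2) (S.min0 _ _ a3)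
      (S.min0 _ _ a4) ⟨cB _ _ _ a1 a3, cB _ _ _ a3 a1⟩ ⟨cB _ _ _ a2 a4, cB _ _ _ a4 a2⟩ x y z)
  · intro w w' b1 b2 b3 b4 a1 a2 a3 a4 x y z
    exact S.cycW a1 a2 a3 a4 (shift_white h0 h1 h2 (S.min0 _ _ a1) (S.min0 _ _ a2) (S.min0 _ _ a3)
      (S.min0 _ _ a4) ⟨cW _ _ _ a1 a3, cW _ _ _ a3 a1⟩ ⟨cW _ _ _ a2 a4, cW _ _ _ a4 a2⟩ x y z)
  · intro b w h hne
    have a := sc b w h
    have b := sc _ _ hv
    have c := S.lt0 h hne
    beta_reduce
    omega
  · intro β β' h h' x
    have a := sc _ _ h
    have b := sc _ _ h'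
    have c := htop β h
    beta_reduce
    omega
  · intro ω ω' h h' x
    have a := sc _ _ h
    have b := sc _ _ h'
    have c := mt (cB none (some ω) none h S.e0) (by omega)
    have d := mt (cB none (some ω') none h' S.e0) (by omega)
    have e := S.lt0 h (Or.inr (by simp))
    beta_reduce
    omega

/-- The edge set after merging the source `v` into the dummy source. -/
def Mer (E : Option B → Option W → Prop) (v : B) (b : Option B) (w : Option W) : Prop :=
  b ≠ some v ∧ (E b w ∨ (b = none ∧ E (some v) w))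

open Classical in
/-- The old source of an edge of the merged edge set. -/
noncomputable def lift (E : Option B → Option W → Prop) (v : B) (b : Option B) (w : Option W) :
    Option B :=
  if b = none ∧ ¬ E none w then some v else b

lemma lift_some (v a : B) (w : Option W) : lift E v (some a) w = some a := by simp [lift]

lemma lift_of {v : B} {w : Option W} (h : E none w) : lift E v none w = none := by simp [lift, h]

lemma lift_not {v : B} {w : Option W} (h : ¬ E none w) : lift E v none w = some v := by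
  simp [lift, h]

lemma Mer.lift {v : B} {b : Option B} {w : Option W} (h : Mer E v b w) : E (lift E v b w) w := by
  cases b with
  | some a => rw [lift_some]; simpa using h.2
  | none =>
    by_cases h0 : E none w
    · rwa [lift_of h0]
    · rw [lift_not h0]; simpa [h0] using h.2

lemma lift_none (v : B) (w : Option W) : lift E v none w = none ∨ lift E v none w = some v := by
  by_cases h0 : E none w
  · exact Or.inl (lift_of h0)
  · exact Or.inr (lift_not h0)

lemma St.merge (S : St E p) {v : B} (hv : E (some v) none)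
    (h2 : ∀ b w, E b w → (b ≠ none ∨ w ≠ none) → p (some v) none ≤ p b w) :
    St (Mer E v) (fun b w => p (lift E v b w) w) := by
  have h01 := S.lt0 hv (Or.inl (by simp))
  have key : ∀ a w, E (some a) w → some a ≠ some v → ∀ b, b = none ∨ b = some v →
      E b none ∧ p b none < p (some a) w := by
    intro a w h hne b hb
    have := lt_of_le_of_ne (h2 _ _ h (Or.inl (by simp))) (S.ne hv h (Or.inl hne.symm))
    rcases hb with rfl | rfl
    · exact ⟨S.e0, h01.trans this⟩
    · exact ⟨hv, this⟩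
  refine ⟨⟨by simp, Or.inl S.e0⟩, fun b w h => ?_, fun b w b' w' h h' e => ?_, ?_, ?_⟩
  · simp only [lift_of S.e0]
    exact S.min0 _ _ h.lift
  · obtain ⟨e1, e2⟩ := S.inj _ _ _ _ h.lift h'.lift e
    subst e2
    refine ⟨?_, rfl⟩
    cases b with
    | none =>
      cases b' with
      | none => rfl
      | some a' =>
        rw [lift_some] at e1
        rcases lift_none (E := E) v w with x | x <;> rw [x] at e1
        · exact e1
        · exact absurd e1.symm h'.1
    | some a =>
      cases b' with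
      | none =>
        rw [lift_some] at e1
        rcases lift_none (E := E) v w with x | x <;> rw [x] at e1
        · exact e1
        · exact absurd e1 h.1
      | some a' => rwa [lift_some, lift_some] at e1
  · intro b b' w1 w2 w3 w4 a1 a2 a3 a4 x y z
    have l1 := a1.lift
    have l2 := a2.lift
    have l3 := a3.lift
    have l4 := a4.lift
    cases b with
    | none =>
      cases b' with
      | none => rfl
      | some a' =>
        exfalso
        simp only [lift_some] at x y z l2 l4
        obtain ⟨k1, k2⟩ := key a' w2 l2 a2.1 _ (lift_none (E := E) v w3)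
        have := S.ncB _ _ _ _ _ _ k1 l2 l3 l4 k2 y z
        rcases lift_none (E := E) v w3 with e | e <;> rw [e] at this
        · simp at this
        · exact a2.1 this.symm
    | some a =>
      cases b' with
      | none =>
        exfalso
        simp only [lift_some] at x y z l1 l3
        obtain ⟨k1, k2⟩ := key a w1 l1 a1.1 _ (lift_none (E := E) v w2)
        have := S.ncB _ _ _ _ _ _ k1 l1 l2 l3 k2 x y
        rcases lift_none (E := E) v w2 with e | e <;> rw [e] at this
        · simp at this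
        · exact a1.1 this.symm
      | some a' =>
        simp only [lift_some] at x y z l1 l2 l3 l4
        exact S.ncB _ _ _ _ _ _ l1 l2 l3 l4 x y z
  · intro w w' b1 b2 b3 b4 a1 a2 a3 a4 x y z
    exact S.ncW _ _ _ _ _ _ a1.lift a2.lift a3.lift a4.lift x y z

lemma Bk.unmerge (S : St E p) {v : B} (hv : E (some v) none)
    (h2 : ∀ b w, E b w → (b ≠ none ∨ w ≠ none) → p (some v) none ≤ p b w)
    (hrem : ∀ c ω, E (some v) (some c) → E none (some c) → E none (some ω) →
      p none (some c) ≤ p none (some ω))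
    {kb : B → ℕ} {kw : W → ℕ} {N : ℕ} (K : Bk (Mer E v) (fun b w => p (lift E v b w) w) kb kw N) :
    ∃ kb', Bk E p kb' kw (N + 1) := by
  classical
  have mer : ∀ a w, E (some a) w → a ≠ v → Mer E v (some a) w :=
    fun a w h hne => ⟨by simpa using hne, Or.inl h⟩
  have mer0 : ∀ w, E none w → Mer E v none w := fun w h => ⟨by simp, Or.inl h⟩
  have merv : ∀ w, E (some v) w → Mer E v none w := fun w h => ⟨by simp, Or.inr ⟨rfl, h⟩⟩
  have lw : ∀ b w, E b (some w) → ∃ b', Mer E v b' (some w) := by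
    intro b w h
    cases b with
    | none => exact ⟨_, mer0 _ h⟩
    | some a =>
      by_cases ha : a = v
      · exact ⟨_, merv _ (ha ▸ h)⟩
      · exact ⟨_, mer _ _ h ha⟩
  have ltW : ∀ b w, E b (some w) → kw w < N := fun b w h => by
    obtain ⟨b', h'⟩ := lw b w h
    exact K.ltW _ _ h'
  have kv : Function.update kb v N v = N := by simp
  have ka : ∀ a w, E (some a) w → (a = v ∧ Function.update kb v N a = N) ∨
      (a ≠ v ∧ Mer E v (some a) w ∧ Function.update kb v N a = kb a ∧ kb a < N) := by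
    intro a w h
    by_cases ha : a = v
    · exact Or.inl ⟨ha, ha ▸ kv⟩
    · exact Or.inr ⟨ha, mer _ _ h ha, by simp [ha], K.ltB _ _ (mer _ _ h ha)⟩
  refine ⟨Function.update kb v N, fun b w h => ?_, fun b w h => (ltW b w h).trans (by omega),
    fun b w b' w' h h' e => ?_, fun b w b' w' h h' e => ?_, fun b w b' w' h h' => ?_,
    fun a c a' c' h h' x y z => ?_, fun a c a' c' h h' x y z => ?_, fun β a c h h' x y => ?_,
    fun ω a c h h' x y => ?_, fun β β' h h' x => ?_, fun ω ω' h h' x => ?_⟩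
  · have := ka b w h
    omega
  · rcases ka b w h with ⟨a1, a2⟩ | ⟨a1, a2, a3, a4⟩ <;>
      rcases ka b' w' h' with ⟨b1, b2⟩ | ⟨b1, b2, b3, b4⟩
    · rw [a1, b1]
    · omega
    · omega
    · exact K.injB _ _ _ _ a2 b2 (by omega)
  · obtain ⟨x, hx⟩ := lw _ _ h
    obtain ⟨y, hy⟩ := lw _ _ h'
    exact K.injW _ _ _ _ hx hy e
  · obtain ⟨y, hy⟩ := lw _ _ h'
    have := ltW _ _ h'
    rcases ka b w h with ⟨a1, a2⟩ | ⟨a1, a2, a3, a4⟩
    · omega
    · rw [a3]; exact K.neBW _ _ _ _ a2 hy
  · have := ltW _ _ h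
    rcases ka a _ h with ⟨a1, a2⟩ | ⟨a1, a2, a3, a4⟩ <;>
      rcases ka a' _ h' with ⟨b1, b2⟩ | ⟨b1, b2, b3, b4⟩
    · omega
    · omega
    · omega
    · exact K.pageB _ _ _ _ a2 b2 (by omega) (by omega) z
  · rcases ka a _ h with ⟨a1, a2⟩ | ⟨a1, a2, a3, a4⟩ <;>
      rcases ka a' _ h' with ⟨b1, b2⟩ | ⟨b1, b2, b3, b4⟩
    · omega
    · omega
    · exact K.uncW c' a c (merv _ (b1 ▸ h')) a2 x (by omega)
    · exact K.pageW _ _ _ _ a2 b2 x (by omega) (by omega)
  · have := ltW _ _ h'
    rcases ka β _ h with ⟨a1, a2⟩ | ⟨a1, a2, a3, a4⟩ <;>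
      rcases ka a _ h' with ⟨b1, b2⟩ | ⟨b1, b2, b3, b4⟩
    · omega
    · omega
    · omega
    · exact K.uncB β a c a2 b2 (by omega) (by omega)
  · rcases ka a _ h' with ⟨b1, b2⟩ | ⟨b1, b2, b3, b4⟩
    · subst b1
      have hne : c ≠ ω := by rintro rfl; exact lt_irrefl _ x
      have : kw ω < kw c := by
        refine K.ordW c ω (merv _ h') (mer0 _ h) ?_
        simp only [lift_of h]
        by_cases hc : E none (some c)
        · rw [lift_of hc]
          exact lt_of_le_of_ne (hrem c ω h' hc h) (S.ne hc h (Or.inr (by simpa using hne)))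
        · rw [lift_not hc]
          refine lt_of_le_of_ne (not_lt.1 fun hlt => ?_) (S.ne h' h (Or.inl (by simp)))
          have e1 := lt_of_le_of_ne (h2 _ _ h (Or.inr (by simp))) (S.ne hv h (Or.inl (by simp)))
          exact absurd (S.ncB _ _ _ _ _ _ S.e0 hv h h' (S.lt0 hv (Or.inl (by simp))) e1 hlt)
            (by simp)
      omega
    · exact K.uncW ω a c (mer0 _ h) b2 x (by omega)
  · rcases ka β _ h with ⟨a1, a2⟩ | ⟨a1, a2, a3, a4⟩ <;>
      rcases ka β' _ h' with ⟨b1, b2⟩ | ⟨b1, b2, b3, b4⟩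
    · subst a1 b1
      exact absurd x (lt_irrefl _)
    · omega
    · subst b1
      exact absurd (h2 _ _ h (Or.inl (by simp))) (not_le.2 x)
    · rw [a3, b3]
      exact K.ordB β β' a2 b2 (by simpa only [lift_some] using x)
  · exact K.ordW ω ω' (mer0 _ h) (mer0 _ h') (by simpa only [lift_of h, lift_of h'] using x)

/-- The number of real vertices that are present. -/
noncomputable def mu (E : Option B → Option W → Prop) : ℕ :=
  {b | ∃ w, E (some b) w}.ncard + {w | ∃ b, E b (some w)}.ncard

lemma mu_flip : mu (fun w b => E b w) = mu E := Nat.add_comm _ _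

lemma mu_mer [Finite B] [Finite W] {v : B} (hv : E (some v) none) : mu (Mer E v) < mu E := by
  have a : {b | ∃ w, Mer E v (some b) w}.ncard < {b | ∃ w, E (some b) w}.ncard := by
    refine Set.ncard_lt_ncard ⟨?_, fun h => ?_⟩ (Set.toFinite _)
    · rintro b ⟨w, -, h⟩
      exact ⟨w, by simpa using h⟩
    · obtain ⟨w, h, -⟩ := h ⟨none, hv⟩
      exact h rfl
  have b : {w | ∃ b, Mer E v b (some w)}.ncard ≤ {w | ∃ b, E b (some w)}.ncard := by
    refine Set.ncard_le_ncard ?_ (Set.toFinite _)
    rintro w ⟨b, h⟩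
    exact ⟨_, h.lift⟩
  unfold mu
  omega

lemma St.peel [Finite B] [Finite W] (S : St E p) {v : B} (hv : E (some v) none)
    (htop : ∀ β, E (some β) none → p (some v) none ≤ p (some β) none)
    (hrem : ∀ c ω, E (some v) (some c) → E none (some c) → E none (some ω) →
      p none (some c) ≤ p none (some ω))
    (ih : ∀ (E' : Option B → Option W → Prop) (p' : Option B → Option W → ℤ), mu E' < mu E →
      St E' p' → ∃ kb kw N, Bk E' p' kb kw N) : ∃ kb kw N, Bk E p kb kw N := by
  obtain ⟨q, Q, h2, oB, oW⟩ := S.reorder hv htop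
  obtain ⟨kb, kw, N, K⟩ := ih _ _ (mu_mer hv) (Q.merge hv h2)
  have hrem' : ∀ c ω, E (some v) (some c) → E none (some c) → E none (some ω) →
      q none (some c) ≤ q none (some ω) := by
    intro c ω a b d
    rcases (hrem c ω a b d).eq_or_lt with e | e
    · obtain ⟨-, e2⟩ := S.inj _ _ _ _ b d e
      rw [e2]
    · exact (oW _ _ b d e).le
  obtain ⟨kb', K'⟩ := Bk.unmerge Q hv h2 hrem' K
  exact ⟨kb', kw, N + 1, K'.ltB, K'.ltW, K'.injB, K'.injW, K'.neBW, K'.pageB, K'.pageW, K'.uncB,
    K'.uncW, fun β β' h h' x => K'.ordB β β' h h' (oB _ _ h h' x),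
    fun ω ω' h h' x => K'.ordW ω ω' h h' (oW _ _ h h' x)⟩

lemma exists_top [Finite B] (f : B → ℤ) (P : B → Prop) (h : ∃ b, P b) :
    ∃ v, P v ∧ ∀ b, P b → f v ≤ f b := by
  classical
  have := Fintype.ofFinite B
  obtain ⟨b, hb⟩ := h
  obtain ⟨v, hv, hmin⟩ := Finset.exists_min_image (Finset.univ.filter P) f ⟨b, by simpa using hb⟩
  exact ⟨v, by simpa using hv, fun b hb => hmin b (by simpa using hb)⟩

/-- With both stacks empty the source of the first edge is put on its stack. -/
lemma St.push (S : St E p) {v : B} {c : W} (hvc : E (some v) (some c))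
    (hB : ∀ β, ¬ E (some β) none)
    (hmin : ∀ b w, E b w → (b ≠ none ∨ w ≠ none) → p (some v) (some c) ≤ p b w) :
    ∃ q : Option B → Option W → ℤ, St (fun b w => E b w ∨ (b = some v ∧ w = none)) q := by
  classical
  have key : ∀ b w, (E b w ∨ (b = some v ∧ w = none)) →
      (b = none ∧ w = none) ∨ (b = some v ∧ w = none) ∨
        (w ≠ none ∧ E b w ∧ p (some v) (some c) ≤ p b w) := by
    rintro b w (h | h)
    · cases w with
      | some w => exact Or.inr (Or.inr ⟨by simp, h, hmin _ _ h (Or.inr (by simp))⟩)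
      | none =>
        cases b with
        | none => exact Or.inl ⟨rfl, rfl⟩
        | some β => exact absurd h (hB β)
    · exact Or.inr (Or.inl h)
  obtain ⟨q, q0, q1, q2⟩ : ∃ q : Option B → Option W → ℤ, q none none = p (some v) (some c) - 2 ∧
      q (some v) none = p (some v) (some c) - 1 ∧ ∀ b w, w ≠ none → q b w = p b w :=
    ⟨fun b w => if w = none then (if b = none then p (some v) (some c) - 2
      else p (some v) (some c) - 1) else p b w, by simp, by simp, fun b w h => by simp [h]⟩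
  have key2 : ∀ b w, (E b w ∨ (b = some v ∧ w = none)) →
      (b = none ∧ w = none ∧ q b w = p (some v) (some c) - 2) ∨
      (b = some v ∧ w = none ∧ q b w = p (some v) (some c) - 1) ∨
        (w ≠ none ∧ E b w ∧ p (some v) (some c) ≤ p b w ∧ q b w = p b w) := by
    intro b w h
    rcases key b w h with ⟨rfl, rfl⟩ | ⟨rfl, rfl⟩ | ⟨x, y, z⟩
    · exact Or.inl ⟨rfl, rfl, q0⟩
    · exact Or.inr (Or.inl ⟨rfl, rfl, q1⟩)
    · exact Or.inr (Or.inr ⟨x, y, z, q2 _ _ x⟩)
  refine ⟨q, Or.inl S.e0, fun b w h => ?_, fun b w b' w' h h' e => ?_, ?_, ?_⟩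
  · have := key2 b w h
    omega
  · rcases key2 b w h with ⟨a1, a2, a3⟩ | ⟨a1, a2, a3⟩ | ⟨a1, a2, a3, a4⟩ <;>
      rcases key2 b' w' h' with ⟨b1, b2, b3⟩ | ⟨b1, b2, b3⟩ | ⟨b1, b2, b3, b4⟩ <;>
      first
      | (exfalso; omega)
      | exact ⟨a1.trans b1.symm, a2.trans b2.symm⟩
      | exact S.inj _ _ _ _ a2 b2 (by omega)
  · intro b b' w1 w2 w3 w4 a1 a2 a3 a4 x y z
    have k3 : E b w3 ∧ q b w3 = p b w3 := by
      have k1 := key2 _ _ a1
      have k2 := key2 _ _ a2
      rcases key2 _ _ a3 with ⟨-, -, e⟩ | ⟨-, -, e⟩ | ⟨-, e, -, e'⟩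
      · omega
      · omega
      · exact ⟨e, e'⟩
    have k4 : E b' w4 ∧ q b' w4 = p b' w4 := by
      have k1 := key2 _ _ a1
      have k2 := key2 _ _ a2
      rcases key2 _ _ a4 with ⟨-, -, e⟩ | ⟨-, -, e⟩ | ⟨-, e, -, e'⟩
      · omega
      · omega
      · exact ⟨e, e'⟩
    by_contra hne
    rcases key2 _ _ a1 with ⟨c1, c2, c3⟩ | ⟨c1, c2, c3⟩ | ⟨c1, c2, c3, c4⟩ <;>
      rcases key2 _ _ a2 with ⟨d1, d2, d3⟩ | ⟨d1, d2, d3⟩ | ⟨d1, d2, d3, d4⟩
    · omega
    · subst c1 d1
      have e1 : p (some v) (some c) < p none w3 :=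
        lt_of_le_of_ne (by omega) (S.ne hvc k3.1 (Or.inl (by simp)))
      exact hne (S.ncB _ _ _ _ _ _ S.e0 hvc k3.1 k4.1 (S.lt0 hvc (Or.inl (by simp))) e1 (by omega))
    · subst c1
      exact hne (S.ncB _ _ _ _ _ _ S.e0 d2 k3.1 k4.1 (S.lt0 d2 (Or.inr d1)) (by omega) (by omega))
    · omega
    · omega
    · subst c1
      have e1 : p (some v) (some c) < p b' w2 :=
        lt_of_le_of_ne d3 (S.ne hvc d2 (Or.inl hne))
      exact hne (S.ncB _ _ _ _ _ _ hvc d2 k3.1 k4.1 e1 (by omega) (by omega))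
    · omega
    · omega
    · exact hne (S.ncB _ _ _ _ _ _ c2 d2 k3.1 k4.1 (by omega) (by omega) (by omega))
  · intro w w' b1 b2 b3 b4 a1 a2 a3 a4 x y z
    have k1 := key2 _ _ a1
    have k2 := key2 _ _ a2
    rcases key2 _ _ a3 with ⟨-, -, e⟩ | ⟨-, -, e⟩ | ⟨c1, c2, -, c4⟩
    · omega
    · omega
    rcases key2 _ _ a4 with ⟨-, -, e⟩ | ⟨-, -, e⟩ | ⟨d1, d2, -, d4⟩
    · omega
    · omega
    rcases k1 with ⟨-, e, -⟩ | ⟨-, e, -⟩ | ⟨-, e1, -, e2⟩
    · exact absurd e c1
    · exact absurd e c1
    rcases k2 with ⟨-, e, -⟩ | ⟨-, e, -⟩ | ⟨-, f1, -, f2⟩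
    · exact absurd e d1
    · exact absurd e d1
    exact S.ncW _ _ _ _ _ _ e1 f1 c2 d2 (by omega) (by omega) (by omega)

theorem St.book [Finite B] [Finite W] (S : St E p) : ∃ kb kw N, Bk E p kb kw N := by
  induction hm : mu E using Nat.strong_induction_on generalizing E p with
  | _ m ih =>
  have ih1 : ∀ (E' : Option B → Option W → Prop) (p' : Option B → Option W → ℤ), mu E' < mu E →
      St E' p' → ∃ kb kw N, Bk E' p' kb kw N := fun E' p' h S' => ih _ (hm ▸ h) S' rfl
  have ih2 : ∀ (E' : Option W → Option B → Prop) (p' : Option W → Option B → ℤ),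
      mu E' < mu (fun w b => E b w) → St E' p' → ∃ kw kb N, Bk E' p' kw kb N := by
    intro E' p' h S'
    obtain ⟨kb, kw, N, K⟩ := ih1 (fun b w => E' w b) _ (by rwa [mu_flip, ← mu_flip (E := E)]) S'.flip
    exact ⟨kw, kb, N, Bk.flip K⟩
  have peelW : ∀ u, E none (some u) → (∀ ω, E none (some ω) → p none (some u) ≤ p none (some ω)) →
      (∀ a β, E (some a) (some u) → E (some a) none → E (some β) none →
        p (some a) none ≤ p (some β) none) → ∃ kb kw N, Bk E p kb kw N := by
    intro u hu htop hrem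
    obtain ⟨kw, kb, N, K⟩ := S.flip.peel hu htop hrem ih2
    exact ⟨kb, kw, N, Bk.flip K⟩
  by_cases hB : ∃ β, E (some β) none
  · obtain ⟨v, hv, htop⟩ := exists_top (fun β => p (some β) none) _ hB
    by_cases hrem : ∀ c ω, E (some v) (some c) → E none (some c) → E none (some ω) →
      p none (some c) ≤ p none (some ω)
    · exact S.peel hv htop hrem ih1
    push Not at hrem
    obtain ⟨c, ω, hvc, hc, hω, hlt⟩ := hrem
    obtain ⟨u, hu, htopu⟩ := exists_top (fun ω => p none (some ω)) (fun ω => E none (some ω))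
      ⟨ω, hω⟩
    refine peelW u hu htopu fun a β hau ha hβ => not_lt.1 fun h => ?_
    exact S.jordan hv ha hu hc hvc hau ((htop β hβ).trans_lt h) ((htopu ω hω).trans_lt hlt)
  by_cases hW : ∃ ω, E none (some ω)
  · obtain ⟨u, hu, htopu⟩ := exists_top (fun ω => p none (some ω)) _ hW
    exact peelW u hu htopu fun a β _ ha _ => absurd ⟨a, ha⟩ hB
  push Not at hB hW
  by_cases hE : ∃ e : B × W, E (some e.1) (some e.2)
  · obtain ⟨⟨v, c⟩, hvc, hmin⟩ := exists_top (fun e : B × W => p (some e.1) (some e.2)) _ hE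
    obtain ⟨q, Q⟩ := S.push hvc hB (by
      intro b w h hne
      cases b with
      | none =>
        cases w with
        | none => simp at hne
        | some ω => exact absurd h (hW ω)
      | some β =>
        cases w with
        | none => exact absurd h (hB β)
        | some ω => exact hmin (β, ω) h)
    have hmu : mu (fun b w => E b w ∨ (b = some v ∧ w = none)) = mu E := by
      unfold mu
      congr 2
      · ext b
        constructor
        · rintro ⟨w, h | ⟨h, -⟩⟩
          · exact ⟨w, h⟩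
          · exact ⟨some c, h ▸ hvc⟩
        · rintro ⟨w, h⟩
          exact ⟨w, Or.inl h⟩
      · ext w
        simp
    obtain ⟨kb, kw, N, K⟩ := Q.peel (v := v) (Or.inr ⟨rfl, rfl⟩) (by
      rintro β (h | ⟨h, -⟩)
      · exact absurd h (hB β)
      · rw [h]) (by
      rintro c ω - (h | ⟨h, -⟩)
      · exact absurd h (hW c)
      · simp at h) (fun E' p' h => ih1 E' p' (hmu ▸ h))
    exact ⟨kb, kw, N, fun b w h => K.ltB b w (Or.inl h), fun b w h => K.ltW b w (Or.inl h),
      fun b w b' w' h h' => K.injB b w b' w' (Or.inl h) (Or.inl h'),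
      fun b w b' w' h h' => K.injW b w b' w' (Or.inl h) (Or.inl h'),
      fun b w b' w' h h' => K.neBW b w b' w' (Or.inl h) (Or.inl h'),
      fun a c a' c' h h' => K.pageB a c a' c' (Or.inl h) (Or.inl h'),
      fun a c a' c' h h' => K.pageW a c a' c' (Or.inl h) (Or.inl h'),
      fun β a c h => absurd h (hB β), fun ω a c h => absurd h (hW ω),
      fun β β' h => absurd h (hB β), fun ω ω' h => absurd h (hW ω)⟩
  · push Not at hE
    have nB : ∀ b w, ¬ E (some b) w := by
      intro b w
      cases w with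
      | none => exact hB b
      | some w => exact hE (b, w)
    have nW : ∀ b w, ¬ E b (some w) := by
      intro b w
      cases b with
      | none => exact hW w
      | some b => exact hE (b, w)
    exact ⟨fun _ => 0, fun _ => 0, 0, fun b w h => absurd h (nB _ _), fun b w h => absurd h (nW _ _),
      fun b w b' w' h => absurd h (nB _ _), fun b w b' w' h => absurd h (nW _ _),
      fun b w b' w' h => absurd h (nB _ _), fun a c a' c' h => absurd h (nB _ _),
      fun a c a' c' h => absurd h (nB _ _), fun β a c h => absurd h (nB _ _),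
      fun ω a c h => absurd h (nW _ _), fun β β' h => absurd h (nB _ _),
      fun ω ω' h => absurd h (nW _ _)⟩

end Pool.Agent.MP_9caa86_co.H25
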