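import Pool.Agent.MP_9caa86_co.H16.Defs
import Pool.Agent.MP_9caa86_co.H42.Sweep
import Pool.Agent.MP_9caa86_co.H25.Peel

/-! Every upward planar bipartite DAG has a two-page vertex order: the edges whose earlier
endpoint is a sink do not cross, and the edges whose earlier endpoint is a source do not cross. -/

set_option autoImplicit false

namespace Pool.Agent.MP_9caa86_co.H25

theorem two_page {n : ℕ} {E : Fin n → Fin n → Prop} (hB : H16.IsBipDAG E)
    (hU : H16.UpwardPlanar E) :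
    ∃ k : Fin n → ℕ, Function.Injective k ∧ (∀ v, k v < n) ∧
      (∀ s t s' t', E s t → E s' t' → ¬ (k t < k t' ∧ k t' < k s ∧ k s < k s')) ∧
      (∀ s t s' t', E s t → E s' t' → ¬ (k s < k s' ∧ k s' < k t ∧ k t < k t')) := by
  classical
  obtain ⟨S, hS⟩ := hB
  obtain ⟨pos, γ, hγ, hP⟩ := hU
  have hU' : H42.UpwardPlanar (Finset.univ.filter fun e : Fin n × Fin n => E e.1 e.2) := by
    refine ⟨pos, fun e => γ e.1 e.2, hP.1, fun e he => hγ _ _ (by simpa using he), ?_⟩
    intro e he f hf hne z hz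
    exact hP.2.2 e.1 e.2 f.1 f.2 (by simpa using he) (by simpa using hf) hne z hz.1 hz.2
  obtain ⟨rk, idx, -, -, -, hinj, hpos, hs, ht⟩ := hU'.order
  have mem : ∀ {s t}, E s t → (s, t) ∈ Finset.univ.filter fun e : Fin n × Fin n => E e.1 e.2 :=
    fun h => by simpa using h
  let E' : Option (Fin n) → Option (Fin n) → Prop := fun b w =>
    (b = none ∧ w = none) ∨ ∃ s t, b = some s ∧ w = some t ∧ E s t
  let p : Option (Fin n) → Option (Fin n) → ℤ := fun b w =>
    match b, w with
    | some s, some t => idx (s, t)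
    | _, _ => 0
  have hp : ∀ s t, p (some s) (some t) = idx (s, t) := fun _ _ => rfl
  have hp0 : p none none = 0 := rfl
  have St' : St E' p := by
    refine ⟨Or.inl ⟨rfl, rfl⟩, ?_, ?_, ?_, ?_⟩
    · rintro b w (⟨rfl, rfl⟩ | ⟨s, t, rfl, rfl, h⟩)
      · exact le_rfl
      · rw [hp, hp0]; positivity
    · rintro b w b' w' (⟨rfl, rfl⟩ | ⟨s, t, rfl, rfl, h⟩) (⟨rfl, rfl⟩ | ⟨s', t', rfl, rfl, h'⟩) e
      · exact ⟨rfl, rfl⟩
      · have := (hpos _ (mem h')).1
        rw [hp, hp0] at e
        omega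
      · have := (hpos _ (mem h)).1
        rw [hp, hp0] at e
        omega
      · rw [hp, hp] at e
        have := hinj (Finset.mem_coe.2 (mem h)) (Finset.mem_coe.2 (mem h')) (by exact_mod_cast e)
        simpa using this
    · intro b b' w1 w2 w3 w4 a1 a2 a3 a4 x y z
      have m : ∀ b w, 0 ≤ p b w := fun b w => by
        cases b <;> cases w <;> simp [p]
      have m1 := m b w1
      rcases a2 with ⟨rfl, rfl⟩ | ⟨s2, t2, rfl, rfl, h2⟩
      · omega
      rcases a3 with ⟨rfl, rfl⟩ | ⟨s3, t3, rfl, rfl, h3⟩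
      · omega
      rcases a1 with ⟨e, -⟩ | ⟨s1, t1, e1, rfl, h1⟩
      · simp at e
      rcases a4 with ⟨e, -⟩ | ⟨s4, t4, e4, rfl, h4⟩
      · simp at e
      obtain rfl : s3 = s1 := by simpa using e1
      obtain rfl : s2 = s4 := by simpa using e4
      simp only [hp, Nat.cast_lt] at x y z
      by_contra hne
      have hne' : s3 ≠ s2 := fun e => hne (by rw [e])
      have r1 := hs _ (mem h1) _ (mem h3) _ (mem h2) rfl x y hne'.symm
      have r2 := hs _ (mem h2) _ (mem h4) _ (mem h3) rfl y z hne'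
      exact lt_asymm r1 r2
    · intro w w' b1 b2 b3 b4 a1 a2 a3 a4 x y z
      have m : ∀ b w, 0 ≤ p b w := fun b w => by
        cases b <;> cases w <;> simp [p]
      have m1 := m b1 w
      rcases a2 with ⟨rfl, rfl⟩ | ⟨s2, t2, rfl, rfl, h2⟩
      · omega
      rcases a3 with ⟨rfl, rfl⟩ | ⟨s3, t3, rfl, rfl, h3⟩
      · omega
      rcases a1 with ⟨-, e⟩ | ⟨s1, t1, rfl, e1, h1⟩
      · simp at e
      rcases a4 with ⟨-, e⟩ | ⟨s4, t4, rfl, e4, h4⟩
      · simp at e
      obtain rfl : t3 = t1 := by simpa using e1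
      obtain rfl : t2 = t4 := by simpa using e4
      simp only [hp, Nat.cast_lt] at x y z
      by_contra hne
      have hne' : t3 ≠ t2 := fun e => hne (by rw [e])
      have r1 := ht _ (mem h1) _ (mem h3) _ (mem h2) rfl x y hne'.symm
      have r2 := ht _ (mem h2) _ (mem h4) _ (mem h3) rfl y z hne'
      exact lt_asymm r1 r2
  obtain ⟨kb, kw, N, K⟩ := St'.book
  have up : ∀ {s t}, E s t → E' (some s) (some t) := fun h => Or.inr ⟨_, _, rfl, rfl, h⟩
  obtain ⟨k, k1, k2, k3⟩ := H42.exists_rank (fun v => if v ∈ S then (kb v : ℝ) else (kw v : ℝ))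
  have hle : ∀ u v, k u < k v → (if u ∈ S then (kb u : ℝ) else (kw u : ℝ)) ≤
      if v ∈ S then (kb v : ℝ) else (kw v : ℝ) := fun u v h =>
    not_lt.1 fun h' => lt_asymm h (k3 _ _ h')
  have bb : ∀ {s t s' t'}, E s t → E s' t' → k s < k s' → kb s < kb s' := by
    intro s t s' t' h h' x
    have := hle _ _ x
    rw [if_pos (hS _ _ h).1, if_pos (hS _ _ h').1] at this
    refine lt_of_le_of_ne (by exact_mod_cast this) fun e => ?_
    rw [K.injB _ _ _ _ (up h) (up h') e] at x
    exact lt_irrefl _ x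
  have ww : ∀ {s t s' t'}, E s t → E s' t' → k t < k t' → kw t < kw t' := by
    intro s t s' t' h h' x
    have := hle _ _ x
    rw [if_neg (hS _ _ h).2, if_neg (hS _ _ h').2] at this
    refine lt_of_le_of_ne (by exact_mod_cast this) fun e => ?_
    rw [K.injW _ _ _ _ (up h) (up h') e] at x
    exact lt_irrefl _ x
  have bw : ∀ {s t s' t'}, E s t → E s' t' → k s < k t' → kb s < kw t' := by
    intro s t s' t' h h' x
    have := hle _ _ x
    rw [if_pos (hS _ _ h).1, if_neg (hS _ _ h').2] at this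
    exact lt_of_le_of_ne (by exact_mod_cast this) (K.neBW _ _ _ _ (up h) (up h'))
  have wb : ∀ {s t s' t'}, E s t → E s' t' → k t < k s' → kw t < kb s' := by
    intro s t s' t' h h' x
    have := hle _ _ x
    rw [if_neg (hS _ _ h).2, if_pos (hS _ _ h').1] at this
    exact lt_of_le_of_ne (by exact_mod_cast this) (K.neBW _ _ _ _ (up h') (up h)).symm
  refine ⟨k, k1, k2, fun s t s' t' h h' ⟨x, y, z⟩ => ?_, fun s t s' t' h h' ⟨x, y, z⟩ => ?_⟩
  · exact K.pageW _ _ _ _ (up h) (up h') (ww h h' x) (wb h' h y) (bb h h' z)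
  · exact K.pageB _ _ _ _ (up h) (up h') (bb h h' x) (bw h' h y) (ww h h' z)

end Pool.Agent.MP_9caa86_co.H25
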